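import Pool.Agent.BBG.Word

/-!
Finitely based varieties inside the class of abelian-by-(nilpotent of class at most `c`) groups:
laws can be tested on tuples of products of boundedly many generators.
-/

namespace Pool.Agent.Results.MP_30526a_lc.BoundedTests

open Subgroup Pool.Agent.BBG

section KK

/-- Functions `B → A`, with `B` acting by right translation of the argument. -/
def KM (B A : Type*) : Type _ := B → A

instance (B A : Type*) [AddCommGroup A] : AddCommGroup (KM B A) :=
  inferInstanceAs (AddCommGroup (B → A))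

instance (B A : Type*) [Group B] [AddCommGroup A] : DistribMulAction B (KM B A) where
  smul b φ := fun x => φ (x * b)
  one_smul φ := by
    funext x
    change φ (x * 1) = φ x
    rw [mul_one]
  mul_smul b b' φ := by
    funext x
    change φ (x * (b * b')) = φ (x * b * b')
    rw [mul_assoc]
  smul_zero _ := rfl
  smul_add _ _ _ := rfl

variable {G : Type*} [Group G] (A : Subgroup G) [A.Normal]

lemma dl_mem (g : G) (b : G ⧸ A) :
    Quotient.out b * g * (Quotient.out (b * (g : G ⧸ A)))⁻¹ ∈ A := by
  rw [← QuotientGroup.eq_one_iff]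
  simp only [QuotientGroup.mk_mul, QuotientGroup.mk_inv, QuotientGroup.out_eq']
  exact mul_inv_cancel _

end KK

theorem law_bounded {k : ℕ} (u : FreeGroup (Fin k)) (c : ℕ) {G : Type*} [Group G]
    (A : Subgroup G) [A.Normal] (hA : ∀ a ∈ A, ∀ b ∈ A, a * b = b * a)
    (hc : (⊤ : Subgroup (G ⧸ A)).lowerCentralSeries c = ⊥)
    (S : Set (Fin k → G)) (hS : closure S = ⊤)
    (h : ∀ g ∈ ball S (radius c u.toWord.length), FreeGroup.lift g u = 1) :
    ∀ g : Fin k → G, FreeGroup.lift g u = 1 := by
  let : CommGroup A :=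
    { (inferInstance : Group A) with
      mul_comm := fun a b => Subtype.ext (hA a.1 a.2 b.1 b.2) }
  let π : G →* G ⧸ A := QuotientGroup.mk' A
  let δ : G → KM (G ⧸ A) (Additive A) := fun g b => Additive.ofMul ⟨_, dl_mem A g b⟩
  refine main_abs π δ ?_ ?_ c hc u S hS h
  · intro g h
    funext b
    change Additive.ofMul (⟨_, dl_mem A (g * h) b⟩ : A) =
      Additive.ofMul (⟨_, dl_mem A g b⟩ : A) +
        Additive.ofMul (⟨_, dl_mem A h (b * (g : G ⧸ A))⟩ : A)
    rw [← ofMul_mul]
    congr 1
    apply Subtype.ext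
    change Quotient.out b * (g * h) * (Quotient.out (b * ((g * h : G) : G ⧸ A)))⁻¹ =
      Quotient.out b * g * (Quotient.out (b * (g : G ⧸ A)))⁻¹ *
        (Quotient.out (b * (g : G ⧸ A)) * h *
          (Quotient.out (b * (g : G ⧸ A) * (h : G ⧸ A)))⁻¹)
    rw [QuotientGroup.mk_mul, mul_assoc b]
    group
  · intro g hg hd
    have hgA : g ∈ A := by
      rwa [← QuotientGroup.ker_mk' A, MonoidHom.mem_ker]
    have h1 := congrFun hd (1 : G ⧸ A)
    have h2 : (⟨_, dl_mem A g 1⟩ : A) = 1 := h1
    have h3 := congrArg Subtype.val h2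
    change Quotient.out (1 : G ⧸ A) * g * (Quotient.out ((1 : G ⧸ A) * (g : G ⧸ A)))⁻¹ = 1 at h3
    have h4 : ((g : G) : G ⧸ A) = 1 := hg
    rw [h4, mul_one] at h3
    have h5 : Quotient.out (1 : G ⧸ A) * g = Quotient.out (1 : G ⧸ A) := by
      rwa [mul_inv_eq_one] at h3
    exact mul_eq_left.mp h5

/-- Generators of a power. -/
def powGen {G : Type*} [Group G] (k : ℕ) (S : Set G) : Set (Fin k → G) :=
  {x | ∃ i : Fin k, ∃ s ∈ S, x = Pi.mulSingle i s}

lemma closure_powGen {G : Type*} [Group G] (k : ℕ) (S : Set G) (hS : closure S = ⊤) :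
    closure (powGen k S) = ⊤ := by
  rw [eq_top_iff]
  intro g _
  apply Subgroup.pi_mem_of_mulSingle_mem
  intro i
  have h : (⊤ : Subgroup G) ≤
      (closure (powGen k S)).comap (MonoidHom.mulSingle (fun _ : Fin k => G) i) := by
    rw [← hS, closure_le]
    intro s hs
    exact subset_closure ⟨i, s, hs, rfl⟩
  exact h (mem_top (g i))

lemma ball_powGen {G : Type*} [Group G] {k : ℕ} {S : Set G} {N : ℕ} {g : Fin k → G}
    (hg : g ∈ ball (powGen k S) N) (i : Fin k) : g i ∈ ball S N := by
  obtain ⟨l, hl, h1, rfl⟩ := hg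
  induction l generalizing N with
  | nil => exact one_mem_ball _
  | cons x l ih =>
    obtain ⟨N, rfl⟩ : ∃ N', N = N' + 1 := ⟨N - 1, by simp at hl; omega⟩
    have hl' : l.length ≤ N := by simpa using hl
    have hx := h1 x (by simp)
    have ih' := ih hl' (fun y hy => h1 y (by simp [hy]))
    obtain ⟨l', hl1, hl2, hl3⟩ := ih'
    obtain ⟨j, s, hs, rfl⟩ := hx
    rw [List.prod_cons, Pi.mul_apply, ← hl3]
    by_cases hij : i = j
    · subst hij
      rw [Pi.mulSingle_eq_same]
      refine ⟨s :: l', by simpa using hl1, ?_, by simp⟩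
      intro y hy
      rw [List.mem_cons] at hy
      rcases hy with rfl | hy
      · exact hs
      · exact hl2 y hy
    · rw [Pi.mulSingle_eq_of_ne hij, one_mul]
      exact ⟨l', by omega, hl2, rfl⟩

/-- For every finite set `W` of words in `k` letters and every `c` there is a constant `C` such
that in every group `G` with an abelian normal subgroup `A` and `G/A` nilpotent of class at most
`c`, and for every generating set `S` of `G`: all words of `W` are laws of `G` as soon as they
vanish at all `k`-tuples of products of at most `C` elements of `S`. -/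
theorem result (k : ℕ) (W : Finset (FreeGroup (Fin k))) (c : ℕ) :
    ∃ C : ℕ, ∀ (G : Type*) [Group G] (A : Subgroup G) [A.Normal],
      (∀ a ∈ A, ∀ b ∈ A, a * b = b * a) →
      (⊤ : Subgroup (G ⧸ A)).lowerCentralSeries c = ⊥ →
      ∀ S : Set G, closure S = ⊤ →
        ((∀ w ∈ W, ∀ g : Fin k → G, FreeGroup.lift g w = 1) ↔
          ∀ w ∈ W, ∀ g : Fin k → G,
            (∀ i, ∃ l : List G, l.length ≤ C ∧ (∀ x ∈ l, x ∈ S) ∧ l.prod = g i) →
            FreeGroup.lift g w = 1) := by
  refine ⟨W.sup fun w => radius c w.toWord.length, ?_⟩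
  intro G _ A _ hA hc S hS
  constructor
  · intro h w hw g _
    exact h w hw g
  · intro h w hw
    refine law_bounded w c A hA hc (powGen k S) (closure_powGen k S hS) ?_
    intro g hg
    refine h w hw g ?_
    intro i
    obtain ⟨l, h1, h2, h3⟩ := ball_powGen hg i
    exact ⟨l, h1.trans (Finset.le_sup (f := fun w => radius c w.toWord.length) hw), h2, h3⟩

end Pool.Agent.Results.MP_30526a_lc.BoundedTests
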