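import Pool.Agent.BBX.Hol

/-!
Words on subgroups of holomorphs of nilpotent groups of bounded class (for example linear groups
and permutation groups of moderate degree): a word which is not a law is violated with polynomial
density.
-/

namespace Pool.Agent.Results.MP_30526a_lc.Holomorphs

universe u

/-- The holomorph of a group `N`: the semidirect product of `N` and its automorphism group. -/
abbrev Hol (N : Type u) [Group N] : Type u := N ⋊[MonoidHom.id (MulAut N)] MulAut N

/-- The value of the word `w` at the tuple with entries `g i * h i`. -/
def val {k : ℕ} {G : Type u} [Group G] (g h : Fin k → G) (w : FreeGroup (Fin k)) : G :=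
  FreeGroup.lift (fun i => g i * h i) w

/-- The word `w` takes only the value `1` on the coset `g Y`, or it takes a value different from
`1` on at least a `1 / m` part of this coset. -/
def Dense {k : ℕ} {G : Type u} [Group G] (w : FreeGroup (Fin k)) (Y : Subgroup (Fin k → G))
    (g : Fin k → G) (m : ℕ) : Prop :=
  (∀ h ∈ Y, val g h w = 1) ∨ Nat.card Y ≤ m * Nat.card {h : Fin k → G // h ∈ Y ∧ val g h w ≠ 1}

/-- For every word `w` in `k` letters and every `d` there is a constant `C` such that the following
holds for every finite nilpotent group `N` of class at most `d` and order at most `2 ^ e`. Let `H`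
be the holomorph of `N`. For every subgroup `Y` of `H ^ k` and every `g` in `H ^ k` the word `w`
either takes only the value `1` on the coset `g Y`, or it takes a value different from `1` on at
least a `(e + 2) ^ (- C)` part of this coset. -/
theorem result (d k : ℕ) (w : FreeGroup (Fin k)) :
    ∃ C : ℕ, ∀ (N : Type u) [Group N] [Finite N] (e : ℕ),
      (⊤ : Subgroup N).lowerCentralSeries d = ⊥ → Nat.card N ≤ 2 ^ e →
      ∀ (Y : Subgroup (Fin k → Hol N)) (g : Fin k → Hol N), Dense w Y g ((e + 2) ^ C) :=
  Pool.Agent.BBX.hol_density d k w

end Pool.Agent.Results.MP_30526a_lc.Holomorphs
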