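import Pool.Agent.BBX.Out

/-!
Finitely based solvable varieties `V` that contain the variety of an outer commutator word `s` and
such that the nilpotent subgroups of `s(Q)` have bounded class for all finite `Q` in `V`: in every
finite solvable group outside `V` the laws of `V` are violated with polynomial density.
-/

namespace Pool.Agent.Results.MP_30526a_lc.OuterVarieties

open scoped commutatorElement
open Pool.Agent.BBN

universe u

/-- For every shape `s` of an outer commutator word, every finite set `W` of words in `k` letters
in the corresponding verbal subgroup `s(F)` of the free group `F` of rank `k`, and every `d` there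
is a constant `C` such that the following holds for every finite solvable group `G` of order at
most `2 ^ n`, every subgroup `Y` of `G ^ k` and every `g` in `G ^ k` (for example `Y = G ^ k`,
`g = 1`). Suppose that for every normal subgroup `M` of `G` that contains all values of the words
of `W` on the coset `g Y` (in the example: the words of `W` are laws of `G / M`) all nilpotent
subgroups of `s(G / M)` have class at most `d`. Then either all words of `W` take only the value
`1` on the coset `g Y`, or one of them takes a value different from `1` on at least a
`(n + 2) ^ (- C)` part of this coset. -/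
theorem result (s : Shape) (d k : ℕ) (W : Finset (FreeGroup (Fin k)))
    (hW : ∀ w ∈ W, w ∈ s.sub (FreeGroup (Fin k))) :
    ∃ C : ℕ, ∀ (G : Type u) [Group G] [Finite G] [Group.IsSolvable G] (n : ℕ),
      Nat.card G ≤ 2 ^ n → ∀ (Y : Subgroup (Fin k → G)) (g : Fin k → G),
      (∀ (M : Subgroup G) [M.Normal],
        (∀ w ∈ W, ∀ h ∈ Y, FreeGroup.lift (fun i => g i * h i) w ∈ M) →
        ∀ X : Subgroup (G ⧸ M), X ≤ s.sub (G ⧸ M) → Group.IsNilpotent X →
          X.lowerCentralSeries d = ⊥) →
        (∀ w ∈ W, ∀ h ∈ Y, FreeGroup.lift (fun i => g i * h i) w = 1) ∨
          ∃ w ∈ W, Nat.card Y ≤ (n + 2) ^ C *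
            Nat.card {h : Fin k → G // h ∈ Y ∧ FreeGroup.lift (fun i => g i * h i) w ≠ 1} :=
  Pool.Agent.BBX.outer_fam s d k W hW

end Pool.Agent.Results.MP_30526a_lc.OuterVarieties
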