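import Pool.Agent.BBX.Fin

/-!
Sets of words on finite solvable groups. Let `V` be a variety of solvable groups, defined by a
finite set `W` of words, such that for suitable `c` and `d` all nilpotent subgroups of
`[γ_c(Q), γ_c(Q)]` have class at most `d`, for all finite `Q` in `V`. Then in every finite solvable
group that does not belong to `V` some word of `W` is violated with polynomial density.
-/

namespace Pool.Agent.Results.MP_30526a_lc.SolvableVarieties

open scoped commutatorElement
open Pool.Agent.BBX

universe u

/-- All nilpotent subgroups of `[γ_c(Q), γ_c(Q)]` have class at most `d`, where `γ_c` is the term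
number `c` of the lower central series, counted from `0`. -/
def NilBound (c d : ℕ) (Q : Type u) [Group Q] : Prop :=
  ∀ X : Subgroup Q,
    X ≤ ⁅(⊤ : Subgroup Q).lowerCentralSeries c, (⊤ : Subgroup Q).lowerCentralSeries c⁆ →
      Group.IsNilpotent X → X.lowerCentralSeries d = ⊥

/-- The value of the word `w` at the tuple with entries `g i * h i`. -/
def val {k : ℕ} {G : Type u} [Group G] {H : Subgroup G} (g : Fin k → G) (h : Fin k → H)
    (w : FreeGroup (Fin k)) : G :=
  FreeGroup.lift (fun i => g i * (h i : G)) w

/-- For every finite set `W` of words in `k` letters and all `c`, `d` there is a constant `C` such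
that the following holds. Let `G` be a group, `H` a finite solvable normal subgroup of `G` of order
at most `2 ^ n`, `Y` a subgroup of `H ^ k` and `g` an element of `G ^ k` (for example `H = G`,
`Y = G ^ k`, `g = 1`). Suppose that for every normal subgroup `M` of `H` that contains all values
of the words of `W` on the coset `g Y` (in the example: the words of `W` are laws of `G / M`) all
nilpotent subgroups of `[γ_c(H / M), γ_c(H / M)]` have class at most `d`. Then either all words of
`W` take only the value `1` on the coset `g Y`, or one of them takes a value different from `1` on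
at least a `(n + 2) ^ (- C)` part of this coset. -/
theorem result (d c k : ℕ) (W : Finset (FreeGroup (Fin k))) :
    ∃ C : ℕ, ∀ (G : Type u) [Group G] (H : Subgroup G) [H.Normal] [Finite H]
      [Group.IsSolvable H] (n : ℕ), Nat.card H ≤ 2 ^ n →
      ∀ (Y : Subgroup (Fin k → H)) (g : Fin k → G),
        (∀ (M : Subgroup H) [M.Normal], (∀ w ∈ W, ∀ h ∈ Y, val g h w ∈ M.map H.subtype) →
          NilBound c d (H ⧸ M)) →
        (∀ w ∈ W, ∀ h ∈ Y, val g h w = 1) ∨
          ∃ w ∈ W, Nat.card Y ≤ (n + 2) ^ C * Nat.card {h : Fin k → H //
              h ∈ Y ∧ val g h w ≠ 1} :=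
  coset_fam d c k W

end Pool.Agent.Results.MP_30526a_lc.SolvableVarieties
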